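import Mathlib
import Pool.Agent.V1153.GH.Cst

/-!
# Entire curves given by iterated linear differential equations in general hypersurfaces

Let `d ≥ 2 n + 2`. For all `s`, `r`, `e` and `δ` a general hypersurface of degree `d` in the projective
space of dimension `n + 1` contains no nonconstant entire curve of complexity at most
`(s, r, e, δ)`.
-/

set_option autoImplicit false

namespace Pool.Agent.Results.MP_b509a1_ag.DifferentialCurves

open MvPolynomial Pool.Agent.V1153.UG

/-- The entire curve with the homogeneous coordinates `g` is of complexity at most `(s, r, e, δ)`: on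
some nonempty open subset `U` of `ℂ` there are a polynomial `q` of degree at most `δ` without zeros in
`U`, vector functions `y_1, ..., y_s` of length `r` such that `y_l' = A_l y_l`, where the entries of the
matrix `A_l` are polynomials of degree at most `e` in each of the variables `z`, `1 / q(z)` and the
entries of `y_i`, `i < l` (this is `IterSys s r e δ U q y`), and a function `u` without zeros in `U`
such that the `u g_j` are polynomials of degree at most `e` in each of the variables `z`, `1 / q(z)` and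
the entries of `y_1, ..., y_s`. -/
def Complexity {n : ℕ} (s r e δ : ℕ) (g : ℂ → Fin (n + 2) → ℂ) : Prop :=
  ∃ (U : Set ℂ) (q : Polynomial ℂ) (y : Fin s → Fin r → ℂ → ℂ) (u : ℂ → ℂ), IsOpen U ∧
    U.Nonempty ∧ IterSys s r e δ U q y ∧ (∀ z ∈ U, u z ≠ 0) ∧
    ∀ j, ∃ c : (Vx s r → Fin (e + 1)) → ℂ, ∀ z ∈ U,
      u z * g z j = pev c (vec z (q.eval z)⁻¹ fun l a => y l a z)

theorem pev_one {ι : Type} [Fintype ι] [DecidableEq ι] (e : ℕ) :
    ∃ c : (ι → Fin (e + 1)) → ℂ, ∀ v, pev c v = 1 := by
  obtain ⟨c, hc⟩ := poly_toPev (ι := ι) (e := e) 1 fun i => by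
    rw [degreeOf_one]
    exact Nat.zero_le _
  exact ⟨c, fun v => by rw [hc, map_one]⟩

/-- Let `n ≥ 0`, `d ≥ 2 n + 2` and `s`, `r`, `e`, `δ` be given. There is a polynomial `Φ` in the
coefficients of the forms of degree `d` in `n + 2` variables, which does not vanish at all forms of
degree `d`, such that for all forms `F` of degree `d` at which `Φ` does not vanish all entire curves of
complexity at most `(s, r, e, δ)` in the hypersurface `F = 0` are constant. -/
theorem result (n d : ℕ) (hd : 2 * n + 2 ≤ d) (s r e δ : ℕ) :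
    ∃ Φ : MvPolynomial (Fin (n + 2) →₀ ℕ) ℂ,
      (∃ F₀ : MvPolynomial (Fin (n + 2)) ℂ, F₀.IsHomogeneous d ∧
        eval (fun m => coeff m F₀) Φ ≠ 0) ∧
      ∀ F : MvPolynomial (Fin (n + 2)) ℂ, F.IsHomogeneous d → eval (fun m => coeff m F) Φ ≠ 0 →
        ∀ g : ℂ → Fin (n + 2) → ℂ, Differentiable ℂ g → (∀ z, g z ≠ 0) →
          (∀ z, eval (g z) F = 0) → Complexity s r e δ g → ∀ z, ∃ c : ℂ, g z = c • g 0 := by
  obtain ⟨N, hN⟩ := fam_none (n + 1) d s r e δ
  obtain ⟨Φ, h1, h2⟩ := Pool.Agent.V1153.GH.gen_hyp (n := n + 1) (d := d) (by omega) N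
  refine ⟨Φ, h1, fun F hF hFΦ g hg h0 hm hc z => ?_⟩
  apply Pool.Agent.V1153.GH.prop_of h0
  intro hnc
  obtain ⟨h3, -, -⟩ := hN {F} 1 (Pool.Agent.V1153.GH.degLe_hyp hF) (h2 F hF hFΦ)
  obtain ⟨U, q, y, u, hU, hUn, hs, hu, hgu⟩ := hc
  obtain ⟨c, hc1⟩ := pev_one (ι := Vx s r) e
  exact h3 g ⟨fun j => differentiable_pi.1 hg j, h0,
    fun z G hG _ => Pool.Agent.V1153.GH.mem_hyp (hm z) G hG,
    fun z => by rw [map_one]; exact one_ne_zero, hnc⟩
    ⟨U, q, y, u, hU, hUn, Set.subset_univ _, hs, hu, hgu, c, fun z _ => by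
      rw [hc1, map_one, one_mul]⟩

end Pool.Agent.Results.MP_b509a1_ag.DifferentialCurves
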