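import Mathlib
import Pool.Agent.V1153.GH.Cst
import Pool.Agent.V1153.XS.Mv2

/-!
# Sums of exponentials of entire functions in general hypersurfaces

Let `d ≥ 2 n + 2`. For all `r` and `e` a general hypersurface `F = 0` of degree `d` in the projective
space of dimension `n + 1` has the following property: if `g_0, ..., g_{n+1}` are functions of `k`
complex variables with `F(g) = 0`, each of which is a sum of `r` functions `p exp h`, where `p` is a
polynomial of degree at most `e` and `h` is an arbitrary entire function, then the quotients of the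
`g_j` are constant. In particular, all holomorphic maps from `ℂ^k` to the hypersurface whose
homogeneous coordinates (up to a common factor, which may have zeros) are such functions are constant.
-/

set_option autoImplicit false

namespace Pool.Agent.Results.MP_b509a1_ag.ExponentialMaps

open MvPolynomial

/-- The function `f` of `k` complex variables is a sum of `r` functions `p exp h`, where `p` is a
polynomial of total degree at most `e` and `h` is an entire function. -/
def ExpSum (k r e : ℕ) (f : (Fin k → ℂ) → ℂ) : Prop :=
  ∃ (p : Fin r → MvPolynomial (Fin k) ℂ) (h : Fin r → (Fin k → ℂ) → ℂ),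
    (∀ i, (p i).totalDegree ≤ e ∧ Differentiable ℂ (h i)) ∧
    ∀ z, f z = ∑ i, eval z (p i) * Complex.exp (h i z)

/-- Let `n ≥ 0`, `d ≥ 2 n + 2` and `r`, `e` be given. There is a polynomial `Φ` in the coefficients of
the forms of degree `d` in `n + 2` variables, which does not vanish at all forms of degree `d`, such
that for all forms `F` of degree `d` at which `Φ` does not vanish, all `k` and all vectors `g` of
`n + 2` functions on `ℂ^k`, each of which is a sum of `r` functions `p exp h` with a polynomial `p` of
degree at most `e` and an arbitrary entire function `h`, with `F(g) = 0` identically, the quotients of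
the coordinates of `g` are constant. -/
theorem result (n d : ℕ) (hd : 2 * n + 2 ≤ d) (r e : ℕ) :
    ∃ Φ : MvPolynomial (Fin (n + 2) →₀ ℕ) ℂ,
      (∃ F₀ : MvPolynomial (Fin (n + 2)) ℂ, F₀.IsHomogeneous d ∧
        eval (fun m => coeff m F₀) Φ ≠ 0) ∧
      ∀ F : MvPolynomial (Fin (n + 2)) ℂ, F.IsHomogeneous d → eval (fun m => coeff m F) Φ ≠ 0 →
        ∀ (k : ℕ) (g : (Fin k → ℂ) → Fin (n + 2) → ℂ), (∀ j, ExpSum k r e fun z => g z j) →
          (∀ z, eval (g z) F = 0) → ∀ z w j l, g z j * g w l = g z l * g w j := by
  obtain ⟨N, hN⟩ := Pool.Agent.V1153.XS.map_point2 (n + 1) d r e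
  obtain ⟨Φ, h1, h2⟩ := Pool.Agent.V1153.GH.gen_hyp (n := n + 1) (d := d) (by omega) N
  refine ⟨Φ, h1, fun F hF hFΦ k g hg hm => ?_⟩
  by_contra hcon
  push Not at hcon
  obtain ⟨z, w, j, l, hne⟩ := hcon
  obtain ⟨x, hx⟩ : ∃ x, g x ≠ 0 := by
    by_contra h0
    push Not at h0
    apply hne
    rw [h0 z, h0 w]
    rfl
  obtain ⟨P, hP, -⟩ := hN {F} 1 (Pool.Agent.V1153.GH.degLe_hyp hF) k g hg
    (fun z G hG => by rw [Set.mem_singleton_iff.1 hG]; exact hm z)
    (fun z => by rw [map_one]; exact one_ne_zero) ⟨z, w, j, l, hne⟩ x hx
  exact h2 F hF hFΦ P hP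

end Pool.Agent.Results.MP_b509a1_ag.ExponentialMaps
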