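import Pool.Agent.V1153.PK.GenC

/-!
# The Kobayashi pseudodistance of general hypersurfaces

Let `d ≥ 2 n + 2`. We consider holomorphic maps from the unit disc to hypersurfaces `F = 0` of degree `d`
in the projective space of dimension `n + 1`. Such a map is given by a vector `f` of holomorphic
homogeneous coordinates without common zeros.

`DCx {F} s r e δ`: the maps of complexity at most `(s, r, e, δ)`: in some open set the homogeneous
coordinates, up to a common factor, are polynomials of degree at most `e` in each of the functions `z`,
`1 / q(z)` and the entries of the solutions `y_1, ..., y_s` of iterated systems of `r` linear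
differential equations, and `q` is a polynomial of degree at most `δ`.

`DAlg {F} m`: the maps all of whose quotients of homogeneous coordinates are algebraic functions which
satisfy an equation of bidegree at most `(m, m)`.

`fs f 0` is the Fubini-Study norm of the derivative at the centre. `KobGe c 𝒟`: the Kobayashi
pseudodistance given by the discs in `𝒟` (the infimum of the lengths, for the Poincaré distance, of the
chains of discs which join two points) is at least `c` times the distance of the projective space.
-/

set_option autoImplicit false

namespace Pool.Agent.Results.MP_b509a1_ag.RestrictedHyperbolicity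

open MvPolynomial Filter Topology Pool.Agent.V1153.UG Pool.Agent.V1153.KB

/-- Let `n ≥ 0`, `d ≥ 2 n + 2` and `s`, `r`, `e`, `δ`, `m` be given. There is a polynomial `Φ` in the
coefficients of the forms of degree `d` in `n + 2` variables, which does not vanish at all forms of
degree `d`, such that for all families `F t` of forms of degree `d` whose coefficients are continuous
functions of a parameter `t` (in any topological space with countable neighbourhood bases, for
instance in the space of all forms of degree `d`, or in a space with one point) and all `t0` such that
`Φ` does not vanish at `F t0` there are `C` and `c > 0` such that for all `t` in a neighbourhood of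
`t0` the derivatives at the centre of the discs of complexity at most `(s, r, e, δ)` and of the
algebraic discs of bidegree at most `(m, m)` in the hypersurface `F t = 0` are at most `C`, and the
Kobayashi pseudodistance given by all these discs is at least `c` times the distance of the projective
space. -/
theorem result (n d : ℕ) (hd : 2 * n + 2 ≤ d) (s r e δ m : ℕ) :
    ∃ Φ : MvPolynomial (Fin (n + 2) →₀ ℕ) ℂ,
      (∃ F₀ : MvPolynomial (Fin (n + 2)) ℂ, F₀.IsHomogeneous d ∧
        eval (fun m => coeff m F₀) Φ ≠ 0) ∧
      ∀ (T : Type) [TopologicalSpace T] [FirstCountableTopology T]
        (F : T → MvPolynomial (Fin (n + 2)) ℂ), CoefFam d F → ∀ t0 : T,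
          eval (fun m => coeff m (F t0)) Φ ≠ 0 →
            ∃ C c : ℝ, 0 < c ∧ ∀ᶠ t in 𝓝 t0,
              (∀ f, (DCx {F t} s r e δ f ∨ DAlg {F t} m f) → fs f 0 ≤ C) ∧
              KobGe c fun f => DCx {F t} s r e δ f ∨ DAlg {F t} m f :=
  hyp_gen (n + 1) d (by omega) s r e δ m

end Pool.Agent.Results.MP_b509a1_ag.RestrictedHyperbolicity
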